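import Pool.Agent.Helper95.MW.Ce

/-!
# MP_80e84b_lc: category arguments
-/

set_option autoImplicit false

namespace Pool.Agent.Helper95.MW

open Nat.Partrec

/-- nowhere dense -/
def NWD (X : Set (ℕ → ℕ)) : Prop :=
  ∀ (y : ℕ → ℕ) (s : ℕ), ∃ (y' : ℕ → ℕ) (s' : ℕ), s ≤ s' ∧ ini y' s = ini y s ∧
    ∀ x ∈ X, ini x s' ≠ ini y' s'

/-- meager -/
def Sm (X : Set (ℕ → ℕ)) : Prop :=
  ∃ S : Set (Set (ℕ → ℕ)), S.Countable ∧ (∀ N ∈ S, NWD N) ∧ X ⊆ ⋃₀ S

/-- dense in the cylinder of `τ` -/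
def DenseIn (X : Set (ℕ → ℕ)) (τ : List ℕ) : Prop :=
  ∀ y ∈ cyl τ, ∀ s, ∃ x ∈ X, x ∈ cyl τ ∧ ini x s = ini y s

theorem exists_denseIn {X : Set (ℕ → ℕ)} (h : ¬ NWD X) : ∃ τ, DenseIn X τ := by
  unfold NWD at h
  push Not at h
  obtain ⟨y, s, h⟩ := h
  refine ⟨ini y s, ?_⟩
  intro y' hy' s'
  have hy2 : ini y' s = ini y s := by
    have : ini y' (ini y s).length = ini y s := hy'
    rwa [ini_length] at this
  obtain ⟨x, hx, hx2⟩ := h y' (max s s') (le_max_left _ _) hy2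
  refine ⟨x, hx, ?_, ini_eq_of_le (le_max_right _ _) hx2⟩
  change ini x (ini y s).length = ini y s
  rw [ini_length, ini_eq_of_le (le_max_left _ _) hx2, hy2]

theorem sm_of_nwd {X : Set (ℕ → ℕ)} (h : NWD X) : Sm X :=
  ⟨{X}, Set.countable_singleton X, by simpa using h, by simp⟩

theorem Sm.mono {X Y : Set (ℕ → ℕ)} (h : Sm Y) (hXY : X ⊆ Y) : Sm X := by
  obtain ⟨S, h1, h2, h3⟩ := h
  exact ⟨S, h1, h2, hXY.trans h3⟩

theorem sm_iUnion {ι : Type*} [Countable ι] {X : ι → Set (ℕ → ℕ)} (h : ∀ i, Sm (X i)) :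
    Sm (⋃ i, X i) := by
  choose S h1 h2 h3 using h
  refine ⟨⋃ i, S i, Set.countable_iUnion h1, ?_, ?_⟩
  · intro N hN
    obtain ⟨i, hi⟩ := Set.mem_iUnion.1 hN
    exact h2 i N hi
  · intro x hx
    obtain ⟨i, hi⟩ := Set.mem_iUnion.1 hx
    obtain ⟨N, hN, hxN⟩ := Set.mem_sUnion.1 (h3 i hi)
    exact Set.mem_sUnion.2 ⟨N, Set.mem_iUnion.2 ⟨i, hN⟩, hxN⟩

theorem exists_not_sm {ι : Type*} [Countable ι] {X : Set (ℕ → ℕ)} (Y : ι → Set (ℕ → ℕ))
    (h : ¬ Sm X) (hXY : ∀ x ∈ X, ∃ i, x ∈ Y i) : ∃ i, ¬ Sm (Y i) := by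
  by_contra hc
  push Not at hc
  exact h ((sm_iUnion hc).mono fun x hx => Set.mem_iUnion.2 (hXY x hx))

theorem nwd_singleton (a : ℕ → ℕ) : NWD {a} := by
  intro y s
  refine ⟨fun i => if i = s then a s + 1 else y i, s + 1, by omega, ?_, ?_⟩
  · refine ini_eq_of_agree fun i hi => ?_
    rw [if_neg (by omega)]
  · intro x hx h
    rw [Set.mem_singleton_iff] at hx
    subst hx
    have := agree_of_ini_eq h s (by omega)
    rw [if_pos rfl] at this
    omega

theorem sm_countable {X : Set (ℕ → ℕ)} (h : X.Countable) : Sm X := by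
  refine ⟨(fun a => {a}) '' X, h.image _, ?_, ?_⟩
  · rintro N ⟨a, -, rfl⟩
    exact nwd_singleton a
  · intro x hx
    exact Set.mem_sUnion.2 ⟨{x}, ⟨x, hx, rfl⟩, rfl⟩

/-- the theorem of Baire -/
theorem not_sm_univ : ¬ Sm (Set.univ : Set (ℕ → ℕ)) := by
  rintro ⟨S, h1, h2, h3⟩
  have hne : S.Nonempty := by
    obtain ⟨N, hN, -⟩ := Set.mem_sUnion.1 (h3 (Set.mem_univ (fun _ => 0)))
    exact ⟨N, hN⟩
  obtain ⟨N, hN⟩ := h1.exists_eq_range hne
  have h4 : ∀ i, NWD (N i) := fun i => h2 _ (by rw [hN]; exact ⟨i, rfl⟩)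
  choose Y T hT hY hN2 using h4
  -- the sequence of pairs
  let st : ℕ → (ℕ → ℕ) × ℕ := fun n => Nat.rec ((fun _ => 0), 0)
    (fun i p => (Y i p.1 p.2, T i p.1 p.2 + 1)) n
  have hst : ∀ i, st (i + 1) = (Y i (st i).1 (st i).2, T i (st i).1 (st i).2 + 1) := fun i => rfl
  have hlt : ∀ i, (st i).2 < (st (i + 1)).2 := by
    intro i
    rw [hst]
    have := hT i (st i).1 (st i).2
    exact Nat.lt_succ_of_le this
  have hge : ∀ i, i ≤ (st i).2 := by
    intro i
    induction i with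
    | zero => exact Nat.zero_le _
    | succ i ih => exact Nat.succ_le_of_lt (lt_of_le_of_lt ih (hlt i))
  have hag : ∀ i j, i ≤ j → ini (st j).1 (st i).2 = ini (st i).1 (st i).2 := by
    intro i j hij
    induction j, hij using Nat.le_induction with
    | base => rfl
    | succ j hij ih =>
      rw [← ih]
      have h5 : ini (st (j + 1)).1 (st j).2 = ini (st j).1 (st j).2 := by
        rw [hst]
        exact hY j (st j).1 (st j).2
      have hmono : (st i).2 ≤ (st j).2 := by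
        clear ih h5
        induction j, hij using Nat.le_induction with
        | base => exact le_rfl
        | succ j hij ih => exact ih.trans (hlt j).le
      exact ini_eq_of_le hmono h5
  let x : ℕ → ℕ := fun n => (st (n + 1)).1 n
  have hx : ∀ i, ini x (st i).2 = ini (st i).1 (st i).2 := by
    intro i
    refine ini_eq_of_agree fun n hn => ?_
    change (st (n + 1)).1 n = (st i).1 n
    rcases le_total (n + 1) i with h | h
    · exact (agree_of_ini_eq (hag (n + 1) i h) n (lt_of_lt_of_le (Nat.lt_succ_self n)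
        (hge (n + 1)))).symm
    · exact agree_of_ini_eq (hag i (n + 1) h) n hn
  obtain ⟨M, hM, hxM⟩ := Set.mem_sUnion.1 (h3 (Set.mem_univ x))
  rw [hN] at hM
  obtain ⟨i, rfl⟩ := hM
  refine hN2 i (st i).1 (st i).2 x hxM ?_
  have h5 := hx (i + 1)
  rw [hst] at h5
  exact ini_eq_of_le (Nat.le_succ _) h5

/-- density and open conditions -/
theorem dense_use {X : Set (ℕ → ℕ)} {τ : List ℕ} (h : DenseIn X τ) {c : Code} {w x : ℕ → ℕ}
    {n : ℕ} (hx : x ∈ cyl τ) (hn : n ∈ WC c (jn w x)) :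
    ∃ x' ∈ X, x' ∈ cyl τ ∧ n ∈ WC c (jn w x') := by
  obtain ⟨s, hs⟩ := WC_use hn
  obtain ⟨x', h1, h2, h3⟩ := h x hx s
  refine ⟨x', h1, h2, hs _ fun i hi => ?_⟩
  unfold jn
  rw [agree_of_ini_eq h3 i hi]

theorem xf_mem_cyl (τ : List ℕ) : xf τ ∈ cyl τ := by
  change ini (xf τ) τ.length = τ
  rw [ini_xf]
  unfold tk
  apply List.ext_getElem
  · simp
  · intro i h1 h2
    simp [h2]

/-- a set which is c.e. in `w ⊕ x` for a nonmeager set of `x` is c.e. in `w` -/
theorem gen_ce {A : Set ℕ} {w : ℕ → ℕ} {X : Set (ℕ → ℕ)} (hX : ¬ Sm X)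
    (h : ∀ x ∈ X, CEIn A (jn w x)) : CEIn A w := by
  obtain ⟨c, hc⟩ := exists_not_sm (fun c : Code => {x | x ∈ X ∧ A = WC c (jn w x)}) hX
    (fun x hx => by
      obtain ⟨c, hc⟩ := ceIn_iff.1 (h x hx)
      exact ⟨c, hx, hc⟩)
  obtain ⟨τ, hτ⟩ := exists_denseIn (fun h => hc (sm_of_nwd h))
  have e : A = {n | ∃ x ∈ cyl τ, n ∈ WC c (jn w x)} := by
    ext n
    constructor
    · intro hn
      obtain ⟨x, hx, hx2, -⟩ := hτ (xf τ) (xf_mem_cyl τ) 0
      exact ⟨x, hx2, hx.2 ▸ hn⟩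
    · rintro ⟨x, hx, hn⟩
      obtain ⟨x', h1, -, h3⟩ := dense_use hτ hx hn
      rw [h1.2]
      exact h3
  rw [e]
  exact ceIn_proj c τ w

theorem gen_le {g w : ℕ → ℕ} {X : Set (ℕ → ℕ)} (hX : ¬ Sm X)
    (h : ∀ x ∈ X, LE g (jn w x)) : LE g w := by
  rw [le_iff_segs]
  exact gen_ce hX fun x hx => le_iff_segs.1 (h x hx)

theorem segs_inj {f g : ℕ → ℕ} (h : segs f = segs g) : f = g := by
  funext n
  have h1 : ec (ini f (n + 1)) ∈ segs g := by
    rw [← h]
    exact ⟨n + 1, rfl⟩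
  obtain ⟨s, hs⟩ := h1
  have h2 : ini f (n + 1) = ini g s := by
    have := congrArg dl hs
    rwa [dl_ec, dl_ec] at this
  have h3 : s = n + 1 := by
    have := congrArg List.length h2
    rw [ini_length, ini_length] at this
    exact this.symm
  subst h3
  exact agree_of_ini_eq h2 n (Nat.lt_succ_self n)

theorem countable_below (b : ℕ → ℕ) : {x | LE x b}.Countable := by
  have h : ∀ x : {x | LE x b}, ∃ c : Code, segs x.1 = WC c b := fun x =>
    ceIn_iff.1 (le_iff_segs.1 x.2)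
  choose F hF using h
  have hinj : Function.Injective F := by
    intro x y hxy
    refine Subtype.ext (segs_inj ?_)
    rw [hF x, hF y, hxy]
  exact Set.countable_coe_iff.1 (hinj.countable)

/-- independent functions are comeager -/
theorem indep_large (b : ℕ → ℕ) : ¬ Sm {x | Indep x b} := by
  intro h0
  have h1 : Sm {x | LE x b} := sm_countable (countable_below b)
  have : Countable {x | LE x b} := Set.countable_coe_iff.2 (countable_below b)
  have h2 : ∀ p : {x | LE x b} × {x | LE x b}, Sm {x | ¬ LE p.2.1 p.1.1 ∧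
      ∀ w, LE x w → LE p.1.1 w → LE p.2.1 w} := by
    rintro ⟨c, d⟩
    by_contra hs
    have h3 : ¬ LE d.1 c.1 := by
      intro hdc
      refine hs ((sm_countable (X := ∅) Set.countable_empty).mono ?_)
      intro x hx
      exact absurd hdc hx.1
    refine h3 (gen_le hs fun x hx => hx.2 _ (le_jn_right _ _) (le_jn_left _ _))
  have h3 := sm_iUnion h2
  obtain ⟨i, hi⟩ := exists_not_sm (fun i : Fin 3 => (match i with
    | 0 => {x | Indep x b}
    | 1 => {x | LE x b}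
    | 2 => ⋃ p : {x | LE x b} × {x | LE x b}, {x | ¬ LE p.2.1 p.1.1 ∧
      ∀ w, LE x w → LE p.1.1 w → LE p.2.1 w} : Set (ℕ → ℕ))) not_sm_univ (fun x _ => by
        by_cases ha : Indep x b
        · exact ⟨0, ha⟩
        · by_cases hb : LE x b
          · exact ⟨1, hb⟩
          · refine ⟨2, ?_⟩
            unfold Indep at ha
            push Not at ha
            obtain ⟨c, d, hc, hd, hw, hcd⟩ := ha hb
            exact Set.mem_iUnion.2 ⟨(⟨c, hc⟩, ⟨d, hd⟩), hcd, hw⟩)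
  match i with
  | 0 => exact hi h0
  | 1 => exact hi h1
  | 2 => exact hi h3

end Pool.Agent.Helper95.MW
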