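import Pool.Agent.Helper95.MW.Core

/-!
# MP_80e84b_lc: automorphisms of the Muchnik lattice
-/

set_option autoImplicit false

namespace Pool.Agent.Helper95.MW

theorem WLE.refl (P : Set (ℕ → ℕ)) : WLE P P := fun f hf => ⟨f, hf, LE.refl f⟩

theorem WLE.trans {P Q R : Set (ℕ → ℕ)} (h1 : WLE P Q) (h2 : WLE Q R) : WLE P R := by
  intro f hf
  obtain ⟨g, hg, hgf⟩ := h2 f hf
  obtain ⟨e, he, heg⟩ := h1 g hg
  exact ⟨e, he, heg.trans hgf⟩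

theorem wle_singleton {P : Set (ℕ → ℕ)} {f : ℕ → ℕ} : WLE P {f} ↔ ∃ g ∈ P, LE g f := by
  constructor
  · intro h
    exact h f rfl
  · intro h x hx
    rw [Set.mem_singleton_iff] at hx
    rw [hx]
    exact h

theorem singleton_wle {g f : ℕ → ℕ} : WLE {g} {f} ↔ LE g f := by
  rw [wle_singleton]
  constructor
  · rintro ⟨x, hx, h⟩
    rw [Set.mem_singleton_iff] at hx
    rwa [hx] at h
  · intro h
    exact ⟨g, rfl, h⟩

theorem wle_of_mem {P : Set (ℕ → ℕ)} {f : ℕ → ℕ} (h : f ∈ P) : WLE P {f} :=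
  wle_singleton.2 ⟨f, h, LE.refl f⟩

/-- the order theoretic definition of solvability -/
def Solv (P : Set (ℕ → ℕ)) : Prop :=
  ∃ Y, WLE P Y ∧ ¬ WLE Y P ∧ ∀ Z, WLE P Z → ¬ WLE Z P → WLE Y Z

theorem solv_iff {P : Set (ℕ → ℕ)} : Solv P ↔ ∃ f, WLE P {f} ∧ WLE {f} P := by
  constructor
  · rintro ⟨Y, h1, h2, h3⟩
    unfold WLE at h2
    push Not at h2
    obtain ⟨f, hf, hY⟩ := h2
    refine ⟨f, wle_of_mem hf, ?_⟩
    by_contra hc
    obtain ⟨g, hg, hgf⟩ := wle_singleton.1 (h3 {f} (wle_of_mem hf) hc)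
    exact hY g hg hgf
  · rintro ⟨f, h1, h2⟩
    refine ⟨{g | LE f g ∧ ¬ LE g f}, ?_, ?_, ?_⟩
    · refine h1.trans ?_
      intro g hg
      exact ⟨f, rfl, hg.1⟩
    · intro h
      obtain ⟨g, hg, hgf⟩ := wle_singleton.1 (h.trans h1)
      exact hg.2 hgf
    · intro Z hZ hZP z hz
      refine ⟨z, ⟨?_, ?_⟩, LE.refl z⟩
      · exact singleton_wle.1 ((h2.trans hZ).trans (wle_of_mem hz))
      · intro hc
        refine hZP (WLE.trans ?_ h2)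
        exact wle_singleton.2 ⟨z, hz, hc⟩

theorem wle_enu {A : Set ℕ} {f : ℕ → ℕ} : WLE (Enu A) {f} ↔ CEIn A f := by
  rw [wle_singleton]
  constructor
  · rintro ⟨g, hg, hgf⟩
    exact CEIn.mono hg hgf
  · intro h
    exact ⟨f, h, LE.refl f⟩

section

/-- `Φ` is an automorphism -/
structure IsAut (Φ : Set (ℕ → ℕ) → Set (ℕ → ℕ)) : Prop where
  iff : ∀ P Q, WLE P Q ↔ WLE (Φ P) (Φ Q)
  surj : ∀ C, ∃ P, WLE (Φ P) C ∧ WLE C (Φ P)

variable {Φ : Set (ℕ → ℕ) → Set (ℕ → ℕ)}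

theorem IsAut.solv (h : IsAut Φ) {P : Set (ℕ → ℕ)} : Solv (Φ P) ↔ Solv P := by
  constructor
  · rintro ⟨Y, h1, h2, h3⟩
    obtain ⟨Y', hY1, hY2⟩ := h.surj Y
    refine ⟨Y', (h.iff _ _).2 (h1.trans hY2), ?_, ?_⟩
    · intro hc
      exact h2 (hY2.trans ((h.iff _ _).1 hc))
    · intro Z hZ hZP
      refine (h.iff _ _).2 (hY1.trans (h3 (Φ Z) ((h.iff _ _).1 hZ) ?_))
      intro hc
      exact hZP ((h.iff _ _).2 hc)
  · rintro ⟨Y, h1, h2, h3⟩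
    refine ⟨Φ Y, (h.iff _ _).1 h1, fun hc => h2 ((h.iff _ _).2 hc), ?_⟩
    intro Z hZ hZP
    obtain ⟨Z', hZ1, hZ2⟩ := h.surj Z
    have h4 : WLE P Z' := (h.iff _ _).2 (hZ.trans hZ2)
    have h5 : ¬ WLE Z' P := fun hc => hZP (hZ2.trans ((h.iff _ _).1 hc))
    exact ((h.iff _ _).1 (h3 Z' h4 h5)).trans hZ1

/-- the induced automorphism of the Turing degrees -/
theorem IsAut.exists_pi (h : IsAut Φ) :
    ∃ π : (ℕ → ℕ) → (ℕ → ℕ), ∀ f, WLE (Φ {f}) {π f} ∧ WLE {π f} (Φ {f}) := by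
  have h1 : ∀ f, ∃ g, WLE (Φ {f}) {g} ∧ WLE {g} (Φ {f}) := by
    intro f
    exact solv_iff.1 (h.solv.2 (solv_iff.2 ⟨f, WLE.refl _, WLE.refl _⟩))
  choose π hπ using h1
  exact ⟨π, hπ⟩

end

end Pool.Agent.Helper95.MW
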