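import Mathlib

/-!
# MP_80e84b_lc: definitions
-/

set_option autoImplicit false

namespace Pool.Agent.Helper95.MW

/-- `g ≤_T f` for total functions -/
def LE (g f : ℕ → ℕ) : Prop := TuringReducible (PFun.lift g) (PFun.lift f)

/-- `A` is c.e. in `h`, that is, `A ≤_e graph(h)` -/
def CEIn (A : Set ℕ) (h : ℕ → ℕ) : Prop :=
  ∃ p : ℕ →. ℕ, TuringReducible p (PFun.lift h) ∧ ∀ n, n ∈ A ↔ (p n).Dom

/-- the functions `z` which compute `x` and in which `A` is c.e. form a cone; by Selman's theorem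
this says that the `e`-degree of `A ⊕ graph(x)` is total -/
def TotalAt (A : Set ℕ) (x : ℕ → ℕ) : Prop :=
  ∃ y : ℕ → ℕ, ∀ z : ℕ → ℕ, (CEIn A z ∧ LE x z) ↔ LE y z

/-- `A` has almost total enumeration degree: for every `x`, either `x ≤_e A` (by Selman's theorem:
every `z` in which `A` is c.e. computes `x`), or the degree of `A ⊕ x` is total -/
def AlmostTotal (A : Set ℕ) : Prop :=
  ∀ x : ℕ → ℕ, (∀ z : ℕ → ℕ, CEIn A z → LE x z) ∨ TotalAt A x

/-- `x` is independent of `b`: `x` is not computable from `b`, and for all `c, d ≤_T b`, if `d` is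
computable from `x ⊕ c` (i.e. from every `w` which computes `x` and `c`), then from `c` -/
def Indep (x b : ℕ → ℕ) : Prop :=
  ¬ LE x b ∧ ∀ c d : ℕ → ℕ, LE c b → LE d b → (∀ w, LE x w → LE c w → LE d w) → LE d c

/-- `A ⊕ x` is total for every `x` independent of some `b` -/
def GenTotal (A : Set ℕ) : Prop :=
  ∃ b : ℕ → ℕ, ∀ x : ℕ → ℕ, Indep x b → TotalAt A x

/-- weak (Muchnik) reducibility of mass problems -/
def WLE (P Q : Set (ℕ → ℕ)) : Prop := ∀ f ∈ Q, ∃ g ∈ P, LE g f

/-- the functions in which `A` is c.e. -/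
def Enu (A : Set ℕ) : Set (ℕ → ℕ) := {h | CEIn A h}

end Pool.Agent.Helper95.MW
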