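import Pool.Agent.Helper95.MW.Rec
import Pool.Agent.Helper95.MW.RDefs

/-!
# MP_80e84b_lc: c.e. sets relative to a function, interface
-/

set_option autoImplicit false

namespace Pool.Agent.Helper95.MW

open Nat.Partrec

theorem le_iff {g f : ℕ → ℕ} : LE g f ↔ RT f g := by
  unfold LE RT TuringReducible
  exact RecursiveIn.iff_nat

theorem LE.refl (f : ℕ → ℕ) : LE f f := TuringReducible.refl _

theorem LE.trans {f g h : ℕ → ℕ} (h1 : LE f g) (h2 : LE g h) : LE f h :=
  TuringReducible.trans h1 h2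

theorem CEIn.mono {A : Set ℕ} {g f : ℕ → ℕ} (h : CEIn A g) (hgf : LE g f) : CEIn A f := by
  obtain ⟨p, hp, hA⟩ := h
  exact ⟨p, TuringReducible.trans hp hgf, hA⟩

/-- join -/
def jn (f g : ℕ → ℕ) : ℕ → ℕ := fun n => Nat.pair (f n) (g n)

theorem le_jn_left (f g : ℕ → ℕ) : LE f (jn f g) := by
  rw [le_iff]
  have h := rt_comp (w := jn f g) rt_left (rt_oracle (jn f g))
  simpa only [jn, Nat.unpair_pair] using h

theorem le_jn_right (f g : ℕ → ℕ) : LE g (jn f g) := by
  rw [le_iff]
  have h := rt_comp (w := jn f g) rt_right (rt_oracle (jn f g))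
  simpa only [jn, Nat.unpair_pair] using h

theorem jn_le {f g h : ℕ → ℕ} (h1 : LE f h) (h2 : LE g h) : LE (jn f g) h := by
  rw [le_iff] at *
  exact rt_pair h1 h2

/-- the c.e. set with code `c` relative to `f` -/
def WC (c : Code) (f : ℕ → ℕ) : Set ℕ := {n | ∃ s, (c.eval (Nat.pair n (ec (ini f s)))).Dom}

theorem ceIn_search {α : Type} [Primcodable α] (ρ : ℕ × α × List ℕ → Bool) (hρ : Primrec ρ)
    (S : α → ℕ) (hS : Primrec S) (w : ℕ → ℕ) :
    CEIn {n | ∃ T, ρ (n, T, ini w (S T)) = true} w := by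
  obtain ⟨p, hp1, hp2, -⟩ := search ρ hρ S hS (fun _ => 0) (Primrec.const 0) w
  exact ⟨p, RecursiveIn.iff_nat.2 hp1, fun n => hp2 n⟩

/-- bounded evaluation -/
def ev (c : Code) (t m : ℕ) : Bool := (Code.evaln t c m).isSome

theorem primrec_ev (c : Code) : Primrec₂ (ev c) := by
  have h := Code.primrec_evaln
  have h2 : Primrec fun a : ℕ × ℕ => Code.evaln a.1 c a.2 :=
    h.comp (Primrec.pair (Primrec.pair Primrec.fst (Primrec.const c)) Primrec.snd)
  exact Primrec.option_isSome.comp h2

theorem dom_iff_ev (c : Code) (m : ℕ) : (c.eval m).Dom ↔ ∃ t, ev c t m = true := by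
  rw [Part.dom_iff_mem]
  constructor
  · rintro ⟨x, hx⟩
    obtain ⟨k, hk⟩ := Code.evaln_complete.1 hx
    exact ⟨k, Option.isSome_iff_exists.2 ⟨x, hk⟩⟩
  · rintro ⟨t, ht⟩
    obtain ⟨x, hx⟩ := Option.isSome_iff_exists.1 ht
    exact ⟨x, Code.evaln_sound hx⟩

theorem ceIn_WC (c : Code) (f : ℕ → ℕ) : CEIn (WC c f) f := by
  have h := ceIn_search (α := ℕ × ℕ)
    (fun v => ev c v.2.1.2 (Nat.pair v.1 (ec v.2.2))) ?_ (fun T => T.1) Primrec.fst f
  · have e : {n | ∃ T : ℕ × ℕ, ev c T.2 (Nat.pair n (ec (ini f T.1))) = true} = WC c f := by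
      ext n
      constructor
      · rintro ⟨⟨s, t⟩, h⟩
        exact ⟨s, (dom_iff_ev c _).2 ⟨t, h⟩⟩
      · rintro ⟨s, h⟩
        obtain ⟨t, ht⟩ := (dom_iff_ev c _).1 h
        exact ⟨⟨s, t⟩, ht⟩
    rw [← e]
    exact h
  · refine (primrec_ev c).comp ?_ ?_
    · exact Primrec.snd.comp (Primrec.fst.comp Primrec.snd)
    · exact Primrec₂.natPair.comp Primrec.fst
        (primrec_ec.comp (Primrec.snd.comp Primrec.snd))

theorem ceIn_iff {A : Set ℕ} {f : ℕ → ℕ} : CEIn A f ↔ ∃ c, A = WC c f := by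
  constructor
  · rintro ⟨p, hp, hA⟩
    obtain ⟨F, hF, hF1, hF2⟩ := approx (RecursiveIn.iff_nat.1 hp)
    have h1 : Nat.Partrec (fun v : ℕ => F (dl v.unpair.2) v.unpair.1) := by
      refine Partrec.nat_iff.1 ?_
      exact hF.comp ((primrec_dl.comp (Primrec.snd.comp Primrec.unpair)).to_comp)
        ((Primrec.fst.comp Primrec.unpair).to_comp)
    obtain ⟨c, hc⟩ := Code.exists_code.1 h1
    have hc' : ∀ v, c.eval v = F (dl v.unpair.2) v.unpair.1 := fun v => congrFun hc v
    refine ⟨c, ?_⟩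
    ext n
    rw [hA n]
    constructor
    · intro h
      obtain ⟨k, hk⟩ := Part.dom_iff_mem.1 h
      obtain ⟨s, hs⟩ := hF2 n k hk
      refine ⟨s, ?_⟩
      rw [hc', Nat.unpair_pair, dl_ec]
      exact Part.dom_iff_mem.2 ⟨k, hs s le_rfl⟩
    · rintro ⟨s, hs⟩
      rw [hc', Nat.unpair_pair, dl_ec] at hs
      obtain ⟨k, hk⟩ := Part.dom_iff_mem.1 hs
      exact Part.dom_iff_mem.2 ⟨k, hF1 s n k hk⟩
  · rintro ⟨c, rfl⟩
    exact ceIn_WC c f

/-- codes of the initial segments of `g` -/
def segs (g : ℕ → ℕ) : Set ℕ := {n | ∃ s, n = ec (ini g s)}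

theorem le_iff_segs {g f : ℕ → ℕ} : LE g f ↔ CEIn (segs g) f := by
  constructor
  · intro h
    refine CEIn.mono ?_ h
    have h1 := ceIn_search (α := ℕ) (fun v => decide (v.1 = ec v.2.2)) ?_ id Primrec.id g
    · have e : {n | ∃ T : ℕ, decide (n = ec (ini g (id T))) = true} = segs g := by
        ext n
        simp [segs]
      rw [← e]
      exact h1
    · exact (PrimrecRel.decide Primrec.eq).comp Primrec.fst
        (primrec_ec.comp (Primrec.snd.comp Primrec.snd))
  · intro h
    obtain ⟨c, hc⟩ := ceIn_iff.1 h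
    obtain ⟨p, hp1, hp2, hp3⟩ := search (α := List ℕ × ℕ × ℕ)
      (fun v => (ev c v.2.1.2.2 (Nat.pair (ec v.2.1.1) (ec v.2.2))) && decide (v.1 < v.2.1.1.length))
      (by
        refine Primrec.and.comp ?_ ?_
        · refine (primrec_ev c).comp ?_ ?_
          · exact Primrec.snd.comp (Primrec.snd.comp (Primrec.fst.comp Primrec.snd))
          · exact Primrec₂.natPair.comp (primrec_ec.comp (Primrec.fst.comp
              (Primrec.fst.comp Primrec.snd))) (primrec_ec.comp (Primrec.snd.comp Primrec.snd))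
        · exact (PrimrecRel.decide Primrec.nat_lt).comp Primrec.fst
            (Primrec.list_length.comp (Primrec.fst.comp (Primrec.fst.comp Primrec.snd))))
      (fun T => T.2.1) (Primrec.fst.comp Primrec.snd)
      (fun v => v.2.1.getD v.1 0)
      (Primrec.list_getD 0 |>.comp (Primrec.fst.comp Primrec.snd) Primrec.fst) f
    rw [le_iff]
    refine hp1.of_eq_tot fun n => ?_
    have h1 : (p n).Dom := by
      rw [← hp2 n]
      have h2 : ec (ini g (n + 1)) ∈ WC c f := by
        rw [← hc]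
        exact ⟨n + 1, rfl⟩
      obtain ⟨s, hs⟩ := h2
      obtain ⟨t, ht⟩ := (dom_iff_ev c _).1 hs
      refine ⟨(ini g (n + 1), s, t), ?_⟩
      simp [ht, ini_length]
    obtain ⟨k, hk⟩ := Part.dom_iff_mem.1 h1
    obtain ⟨⟨l, s, t⟩, h3, h4⟩ := hp3 n k hk
    simp only [Bool.and_eq_true, decide_eq_true_eq] at h3
    have h5 : ec l ∈ segs g := by
      rw [hc]
      exact ⟨s, (dom_iff_ev c _).2 ⟨t, h3.1⟩⟩
    obtain ⟨s', hs'⟩ := h5
    have h6 : l = ini g s' := by
      have := congrArg dl hs'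
      rwa [dl_ec, dl_ec] at this
    have h7 : k = g n := by
      rw [h4, h6]
      have h8 : n < s' := by
        have := h3.2
        rwa [h6, ini_length] at this
      simp [ini, h8]
    rw [← h7]
    exact hk

/-! ### projection and combination -/

/-- the first `s` values of `l` (padded by zeros) -/
def tk (l : List ℕ) (s : ℕ) : List ℕ := (List.range s).map (fun i => l.getD i 0)

/-- the function with initial segment `l`, then zero -/
def xf (l : List ℕ) : ℕ → ℕ := fun i => l.getD i 0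

theorem ini_xf (l : List ℕ) (s : ℕ) : ini (xf l) s = tk l s := rfl

theorem primrec_tk : Primrec₂ tk := by
  refine Primrec.list_map (Primrec.list_range.comp Primrec.snd) ?_
  exact (Primrec.list_getD 0).comp (Primrec.fst.comp Primrec.fst) Primrec.snd

theorem ini_eq_of_agree {f g : ℕ → ℕ} {s : ℕ} (h : ∀ i, i < s → f i = g i) : ini f s = ini g s := by
  unfold ini
  refine List.map_congr_left fun i hi => h i (List.mem_range.1 hi)

theorem agree_of_ini_eq {f g : ℕ → ℕ} {s : ℕ} (h : ini f s = ini g s) :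
    ∀ i, i < s → f i = g i := by
  intro i hi
  have h1 := ini_get? (f := f) hi
  rw [h, ini_get? hi] at h1
  exact (Option.some.inj h1).symm

theorem ini_eq_of_le {f g : ℕ → ℕ} {s t : ℕ} (hst : s ≤ t) (h : ini f t = ini g t) :
    ini f s = ini g s :=
  ini_eq_of_agree fun i hi => agree_of_ini_eq h i (lt_of_lt_of_le hi hst)

theorem tk_ini {f : ℕ → ℕ} {s t : ℕ} (h : s ≤ t) : tk (ini f t) s = ini f s := by
  unfold tk ini
  refine List.map_congr_left fun i hi => ?_
  have : i < t := lt_of_lt_of_le (List.mem_range.1 hi) h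
  simp [this]

theorem xf_ini_agree (f : ℕ → ℕ) (s : ℕ) : ∀ i, i < s → xf (ini f s) i = f i := by
  intro i hi
  simp [xf, ini, hi]

/-- the coordinatewise pairing of the first values -/
def zp (l m : List ℕ) (s : ℕ) : List ℕ :=
  (List.range s).map (fun i => Nat.pair (l.getD i 0) (m.getD i 0))

theorem primrec_zp : Primrec fun v : (List ℕ × List ℕ) × ℕ => zp v.1.1 v.1.2 v.2 := by
  refine Primrec.list_map (Primrec.list_range.comp Primrec.snd) ?_
  refine Primrec₂.natPair.comp ?_ ?_
  · exact (Primrec.list_getD 0).comp (Primrec.fst.comp (Primrec.fst.comp Primrec.fst)) Primrec.snd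
  · exact (Primrec.list_getD 0).comp (Primrec.snd.comp (Primrec.fst.comp Primrec.fst)) Primrec.snd

theorem ini_jn (f g : ℕ → ℕ) (s t u : ℕ) (ht : s ≤ t) (hu : s ≤ u) :
    zp (ini f t) (ini g u) s = ini (jn f g) s := by
  unfold zp ini jn
  refine List.map_congr_left fun i hi => ?_
  have h1 : i < t := lt_of_lt_of_le (List.mem_range.1 hi) ht
  have h2 : i < u := lt_of_lt_of_le (List.mem_range.1 hi) hu
  simp [h1, h2]

theorem ini_jn_xf (f : ℕ → ℕ) (l : List ℕ) (s : ℕ) :
    zp (ini f s) l s = ini (jn f (xf l)) s := by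
  unfold zp ini jn xf
  refine List.map_congr_left fun i hi => ?_
  have h1 : i < s := List.mem_range.1 hi
  simp [h1]

/-- use principle -/
theorem WC_use {c : Code} {f : ℕ → ℕ} {n : ℕ} (h : n ∈ WC c f) :
    ∃ s, ∀ g : ℕ → ℕ, (∀ i, i < s → g i = f i) → n ∈ WC c g := by
  obtain ⟨s, hs⟩ := h
  refine ⟨s, fun g hg => ⟨s, ?_⟩⟩
  rwa [ini_eq_of_agree hg]

/-- the cylinder of a string -/
def cyl (τ : List ℕ) : Set (ℕ → ℕ) := {x | ini x τ.length = τ}

/-- projection -/
theorem ceIn_proj (c : Code) (τ : List ℕ) (w : ℕ → ℕ) :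
    CEIn {n | ∃ x ∈ cyl τ, n ∈ WC c (jn w x)} w := by
  have h := ceIn_search (α := List ℕ × ℕ × ℕ)
    (fun v => (ev c v.2.1.2.2 (Nat.pair v.1 (ec (zp v.2.2 v.2.1.1 v.2.1.2.1)))) &&
      decide (tk v.2.1.1 τ.length = τ))
    (by
      refine Primrec.and.comp ?_ ?_
      · refine (primrec_ev c).comp ?_ ?_
        · exact Primrec.snd.comp (Primrec.snd.comp (Primrec.fst.comp Primrec.snd))
        · refine Primrec₂.natPair.comp Primrec.fst (primrec_ec.comp ?_)
          refine primrec_zp.comp (Primrec.pair (Primrec.pair ?_ ?_) ?_)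
          · exact Primrec.snd.comp Primrec.snd
          · exact Primrec.fst.comp (Primrec.fst.comp Primrec.snd)
          · exact Primrec.fst.comp (Primrec.snd.comp (Primrec.fst.comp Primrec.snd))
      · refine (PrimrecRel.decide Primrec.eq).comp ?_ (Primrec.const τ)
        exact primrec_tk.comp (Primrec.fst.comp (Primrec.fst.comp Primrec.snd))
          (Primrec.const _))
    (fun T => T.2.1) (Primrec.fst.comp Primrec.snd) w
  have e : {n | ∃ T : List ℕ × ℕ × ℕ, ((ev c T.2.2 (Nat.pair n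
      (ec (zp (ini w T.2.1) T.1 T.2.1)))) && decide (tk T.1 τ.length = τ)) = true} =
      {n | ∃ x ∈ cyl τ, n ∈ WC c (jn w x)} := by
    ext n
    constructor
    · rintro ⟨⟨l, s, t⟩, h1⟩
      simp only [Bool.and_eq_true, decide_eq_true_eq] at h1
      refine ⟨xf l, h1.2, s, (dom_iff_ev c _).2 ⟨t, ?_⟩⟩
      rw [← ini_jn_xf]
      exact h1.1
    · rintro ⟨x, hx, s, hs⟩
      obtain ⟨t, ht⟩ := (dom_iff_ev c _).1 hs
      refine ⟨(ini x (max s τ.length), s, t), ?_⟩
      simp only [Bool.and_eq_true, decide_eq_true_eq]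
      rw [ini_jn w x s s (max s τ.length) le_rfl (le_max_left _ _),
        tk_ini (le_max_right _ _)]
      exact ⟨ht, hx⟩
  rw [← e]
  exact h

/-- combination -/
theorem ceIn_comb {A : Set ℕ} {z x : ℕ → ℕ} (c : Code) (hA : CEIn A z) (hx : LE x z) :
    CEIn {q | ∃ p : List ℕ, ec p ∈ A ∧
      (c.eval (Nat.pair q (ec (zp p (ini x p.length) p.length)))).Dom} z := by
  obtain ⟨c0, hc0⟩ := ceIn_iff.1 hA
  have h := ceIn_search (α := List ℕ × ℕ × ℕ × ℕ)
    (fun v => (ev c0 v.2.1.2.2.1 (Nat.pair (ec v.2.1.1)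
        (ec ((List.range v.2.1.2.1).map (fun i => (v.2.2.getD i 0).unpair.1))))) &&
      (ev c v.2.1.2.2.2 (Nat.pair v.1 (ec ((List.range v.2.1.1.length).map
        (fun i => Nat.pair (v.2.1.1.getD i 0) (v.2.2.getD i 0).unpair.2))))))
    (by
      refine Primrec.and.comp ?_ ?_
      · refine (primrec_ev c0).comp ?_ ?_
        · exact Primrec.fst.comp (Primrec.snd.comp (Primrec.snd.comp
            (Primrec.fst.comp Primrec.snd)))
        · refine Primrec₂.natPair.comp (primrec_ec.comp (Primrec.fst.comp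
            (Primrec.fst.comp Primrec.snd))) (primrec_ec.comp ?_)
          refine Primrec.list_map (Primrec.list_range.comp (Primrec.fst.comp
            (Primrec.snd.comp (Primrec.fst.comp Primrec.snd)))) ?_
          refine Primrec.fst.comp (Primrec.unpair.comp ?_)
          exact (Primrec.list_getD 0).comp (Primrec.snd.comp (Primrec.snd.comp Primrec.fst))
            Primrec.snd
      · refine (primrec_ev c).comp ?_ ?_
        · exact Primrec.snd.comp (Primrec.snd.comp (Primrec.snd.comp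
            (Primrec.fst.comp Primrec.snd)))
        · refine Primrec₂.natPair.comp Primrec.fst (primrec_ec.comp ?_)
          refine Primrec.list_map (Primrec.list_range.comp (Primrec.list_length.comp
            (Primrec.fst.comp (Primrec.fst.comp Primrec.snd)))) ?_
          refine Primrec₂.natPair.comp ?_ (Primrec.snd.comp (Primrec.unpair.comp ?_))
          · exact (Primrec.list_getD 0).comp (Primrec.fst.comp (Primrec.fst.comp
              (Primrec.snd.comp Primrec.fst))) Primrec.snd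
          · exact (Primrec.list_getD 0).comp (Primrec.snd.comp (Primrec.snd.comp Primrec.fst))
              Primrec.snd)
    (fun T => T.2.1 + T.1.length)
    (Primrec.nat_add.comp (Primrec.fst.comp Primrec.snd)
      (Primrec.list_length.comp Primrec.fst)) (jn z x)
  refine CEIn.mono ?_ (jn_le (LE.refl z) hx)
  have e1 : ∀ s t : ℕ, s ≤ t → (List.range s).map (fun i => ((ini (jn z x) t).getD i 0).unpair.1)
      = ini z s := by
    intro s t hst
    unfold ini jn
    refine List.map_congr_left fun i hi => ?_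
    have : i < t := lt_of_lt_of_le (List.mem_range.1 hi) hst
    simp [this]
  have e2 : ∀ (p : List ℕ) (t : ℕ), p.length ≤ t → (List.range p.length).map
      (fun i => Nat.pair (p.getD i 0) ((ini (jn z x) t).getD i 0).unpair.2)
      = zp p (ini x p.length) p.length := by
    intro p t hst
    unfold zp ini jn
    refine List.map_congr_left fun i hi => ?_
    have h1 : i < p.length := List.mem_range.1 hi
    have : i < t := lt_of_lt_of_le h1 hst
    simp [this, h1]
  have e : {n | ∃ T : List ℕ × ℕ × ℕ × ℕ, ((ev c0 T.2.2.1 (Nat.pair (ec T.1)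
        (ec ((List.range T.2.1).map
          (fun i => ((ini (jn z x) (T.2.1 + T.1.length)).getD i 0).unpair.1))))) &&
      (ev c T.2.2.2 (Nat.pair n (ec ((List.range T.1.length).map
        (fun i => Nat.pair (T.1.getD i 0)
          ((ini (jn z x) (T.2.1 + T.1.length)).getD i 0).unpair.2)))))) = true} =
      {q | ∃ p : List ℕ, ec p ∈ A ∧
      (c.eval (Nat.pair q (ec (zp p (ini x p.length) p.length)))).Dom} := by
    ext q
    constructor
    · rintro ⟨⟨p, s, t0, t⟩, h1⟩
      simp only [Bool.and_eq_true] at h1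
      rw [e1 s (s + p.length) (by omega), e2 p (s + p.length) (by omega)] at h1
      refine ⟨p, ?_, (dom_iff_ev c _).2 ⟨t, h1.2⟩⟩
      rw [hc0]
      exact ⟨s, (dom_iff_ev c0 _).2 ⟨t0, h1.1⟩⟩
    · rintro ⟨p, hp, hq⟩
      rw [hc0] at hp
      obtain ⟨s, hs⟩ := hp
      obtain ⟨t0, ht0⟩ := (dom_iff_ev c0 _).1 hs
      obtain ⟨t, ht⟩ := (dom_iff_ev c _).1 hq
      refine ⟨(p, s, t0, t), ?_⟩
      simp only [Bool.and_eq_true]
      rw [e1 s (s + p.length) (by omega), e2 p (s + p.length) (by omega)]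
      exact ⟨ht0, ht⟩
  rw [← e]
  exact h

end Pool.Agent.Helper95.MW
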