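import Pool.Agent.Helper95.MW.Cat

/-!
# MP_80e84b_lc: upward closed classes whose intersections with many cones are cones
-/

set_option autoImplicit false

namespace Pool.Agent.Helper95.MW

open Nat.Partrec

theorem core (U : Set (ℕ → ℕ)) (hU : ∀ f g, f ∈ U → LE f g → g ∈ U) (I : (ℕ → ℕ) → Prop)
    (hI : ¬ Sm {x | I x})
    (H1 : ∀ x, I x → ∃ y, ∀ z, (z ∈ U ∧ LE x z) ↔ LE y z)
    (H2 : ∀ z, (∀ x, I x → jn z x ∈ U) → z ∈ U) : ∃ A : Set ℕ, ∀ z, z ∈ U ↔ CEIn A z := by
  classical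
  choose! y hy using H1
  have hyU : ∀ x, I x → y x ∈ U ∧ LE x (y x) := fun x hx => (hy x hx (y x)).2 (LE.refl _)
  obtain ⟨x0, hx0⟩ : ∃ x0, I x0 := by
    by_contra hc
    push Not at hc
    refine hI ((sm_countable (X := ∅) Set.countable_empty).mono ?_)
    intro x hx
    exact absurd hx (hc x)
  obtain ⟨u0, hu0⟩ : ∃ u0, u0 ∈ U := ⟨y x0, (hyU x0 hx0).1⟩
  -- one functional for `y x`
  obtain ⟨V, hV⟩ := exists_not_sm (fun V : Code => {x | I x ∧ segs (y x) = WC V (jn u0 x)}) hI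
    (fun x hx => by
      have h1 : LE (y x) (jn u0 x) :=
        (hy x hx _).1 ⟨hU _ _ hu0 (le_jn_left _ _), le_jn_right _ _⟩
      obtain ⟨c, hc⟩ := ceIn_iff.1 (le_iff_segs.1 h1)
      exact ⟨c, hx, hc⟩)
  set N : Set (ℕ → ℕ) := {x | I x ∧ segs (y x) = WC V (jn u0 x)} with hNdef
  -- the relation between two points of `N`
  have hpair : ∀ x x', I x → I x' → LE (y x') (jn (y x) x') := fun x x' hx hx' =>
    (hy x' hx' _).1 ⟨hU _ _ (hyU x hx).1 (le_jn_left _ _), le_jn_right _ _⟩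
  set R : Code × Code → (ℕ → ℕ) → Set (ℕ → ℕ) := fun c x =>
    {x' | x' ∈ N ∧ segs (y x') = WC c.1 (jn (y x) x') ∧ segs (y x) = WC c.2 (jn (y x') x)}
    with hR
  have h1 : ∀ x ∈ N, ∃ ct : (Code × Code) × List ℕ, x ∈ N ∧ DenseIn (R ct.1 x) ct.2 := by
    intro x hx
    obtain ⟨c, hc⟩ := exists_not_sm (fun c => R c x) hV (fun x' hx' => by
      obtain ⟨c1, hc1⟩ := ceIn_iff.1 (le_iff_segs.1 (hpair x x' hx.1 hx'.1))
      obtain ⟨c2, hc2⟩ := ceIn_iff.1 (le_iff_segs.1 (hpair x' x hx'.1 hx.1))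
      exact ⟨(c1, c2), hx', hc1, hc2⟩)
    obtain ⟨τ, hτ⟩ := exists_denseIn (fun h => hc (sm_of_nwd h))
    exact ⟨(c, τ), hx, hτ⟩
  obtain ⟨⟨⟨c1, c2⟩, τ⟩, hc⟩ := exists_not_sm
    (fun ct : (Code × Code) × List ℕ => {x | x ∈ N ∧ DenseIn (R ct.1 x) ct.2}) hV h1
  set NN : Set (ℕ → ℕ) := {x | x ∈ N ∧ DenseIn (R (c1, c2) x) τ} with hNN
  -- the set
  set A : Set ℕ := {n | ∃ x' ∈ cyl τ, n ∈ WC V (jn u0 x')} with hA
  have hc' : ¬ Sm NN := hc
  have ha : ∀ x ∈ NN, CEIn A (y x) := by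
    intro x hx
    have e : A = {n | ∃ x' ∈ cyl τ, n ∈ WC c1 (jn (y x) x')} := by
      ext n
      constructor
      · rintro ⟨x', hx', hn⟩
        obtain ⟨x'', h3, h4, h5⟩ := dense_use hx.2 hx' hn
        refine ⟨x'', h4, ?_⟩
        rw [← h3.2.1, h3.1.2]
        exact h5
      · rintro ⟨x', hx', hn⟩
        obtain ⟨x'', h3, h4, h5⟩ := dense_use hx.2 hx' hn
        refine ⟨x'', h4, ?_⟩
        rw [← h3.1.2, h3.2.1]
        exact h5
    rw [e]
    exact ceIn_proj c1 τ (y x)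
  have hb : ∀ x ∈ NN, ∀ z, CEIn A z → LE x z → LE (y x) z := by
    intro x hx z hz hxz
    have e : segs (y x) = {q | ∃ p : List ℕ, ec p ∈ A ∧
        (c2.eval (Nat.pair q (ec (zp p (ini x p.length) p.length)))).Dom} := by
      ext q
      constructor
      · intro hq
        obtain ⟨x', h3, h4, -⟩ := hx.2 (xf τ) (xf_mem_cyl τ) 0
        have h5 : q ∈ WC c2 (jn (y x') x) := by
          rw [← h3.2.2]
          exact hq
        obtain ⟨s, hs⟩ := h5
        refine ⟨ini (y x') s, ⟨x', h4, ?_⟩, ?_⟩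
        · rw [← h3.1.2]
          exact ⟨s, rfl⟩
        · rw [ini_length, ini_jn (y x') x s s s le_rfl le_rfl]
          exact hs
      · rintro ⟨p, ⟨x', hx', hp⟩, hq⟩
        obtain ⟨x'', h3, h4, h5⟩ := dense_use hx.2 hx' hp
        rw [← h3.1.2] at h5
        obtain ⟨s, hs⟩ := h5
        have h6 : p = ini (y x'') s := by
          have := congrArg dl hs
          rwa [dl_ec, dl_ec] at this
        rw [h6, ini_length, ini_jn (y x'') x s s s le_rfl le_rfl] at hq
        rw [h3.2.2]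
        exact ⟨s, hq⟩
    rw [le_iff_segs, e]
    exact ceIn_comb c2 hz hxz
  have hab : ∀ x ∈ NN, ∀ z, LE x z → (z ∈ U ↔ CEIn A z) := by
    intro x hx z hxz
    constructor
    · intro hz
      exact (ha x hx).mono ((hy x hx.1.1 z).1 ⟨hz, hxz⟩)
    · intro hz
      exact ((hy x hx.1.1 z).2 (hb x hx z hz hxz)).1
  refine ⟨A, fun z => ⟨fun hz => ?_, fun hz => ?_⟩⟩
  · exact gen_ce hc' fun x hx => (hab x hx _ (le_jn_right _ _)).1 (hU _ _ hz (le_jn_left _ _))
  · refine H2 z fun x hx => ?_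
    have h2 : LE (y x) (jn z x) := by
      refine gen_le hc' fun g hg => ?_
      have h3 : jn (jn z x) g ∈ U := by
        rw [hab g hg _ (le_jn_right _ _)]
        exact hz.mono ((le_jn_left z x).trans (le_jn_left _ _))
      exact (hy x hx _).1 ⟨h3, (le_jn_right z x).trans (le_jn_left _ _)⟩
    exact ((hy x hx _).2 h2).1

/-- closure property of the classes of the functions in which a set is c.e. -/
theorem ce_closed (A : Set ℕ) (b z : ℕ → ℕ) (h : ∀ x, Indep x b → CEIn A (jn z x)) :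
    CEIn A z := gen_ce (indep_large b) h

theorem exists_ceIn (A : Set ℕ) : ∃ z, CEIn A z := by
  classical
  refine ⟨fun n => if n ∈ A then 1 else 0, ?_⟩
  have h := ceIn_search (α := ℕ)
    (fun v => decide (v.2.2[v.1]? = some 1)) ?_ id Primrec.id
    (fun n => if n ∈ A then 1 else 0)
  · have e : {n | ∃ T : ℕ, decide ((ini (fun n => if n ∈ A then 1 else 0) (id T))[n]? = some 1)
        = true} = A := by
      ext n
      simp only [Set.mem_ofPred_eq, decide_eq_true_eq, id]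
      constructor
      · rintro ⟨T, hT⟩
        have := ini_get?_eq hT
        by_contra hn
        rw [if_neg hn] at this
        exact absurd this (by norm_num)
      · intro hn
        refine ⟨n + 1, ?_⟩
        rw [ini_get? (Nat.lt_succ_self n), if_pos hn]
    rw [e] at h
    exact h
  · exact (PrimrecRel.decide Primrec.eq).comp (Primrec.list_getElem?.comp
      (Primrec.snd.comp Primrec.snd) Primrec.fst) (Primrec.const (some 1))

theorem almostTotal_genTotal {A : Set ℕ} (h : AlmostTotal A) : GenTotal A := by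
  obtain ⟨b, hb⟩ := exists_ceIn A
  refine ⟨b, fun x hx => ?_⟩
  rcases h x with h1 | h1
  · exact absurd (h1 b hb) hx.1
  · exact h1

end Pool.Agent.Helper95.MW
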