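import Pool.Agent.Helper95.MW.Aut

/-!
# MP_80e84b_lc: invariance of the generically total degrees
-/

set_option autoImplicit false

namespace Pool.Agent.Helper95.MW

/-- properties of the induced map of the functions -/
structure PiAut (π : (ℕ → ℕ) → (ℕ → ℕ)) : Prop where
  iff : ∀ g f, LE g f ↔ LE (π g) (π f)
  surj : ∀ h, ∃ f, LE (π f) h ∧ LE h (π f)

theorem IsAut.piAut {Φ : Set (ℕ → ℕ) → Set (ℕ → ℕ)} (h : IsAut Φ) {π : (ℕ → ℕ) → (ℕ → ℕ)}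
    (hπ : ∀ f, WLE (Φ {f}) {π f} ∧ WLE {π f} (Φ {f})) : PiAut π := by
  constructor
  · intro g f
    rw [← singleton_wle, ← singleton_wle, h.iff]
    constructor
    · intro h1
      exact ((hπ g).2.trans h1).trans (hπ f).1
    · intro h1
      exact ((hπ g).1.trans h1).trans (hπ f).2
  · intro g
    obtain ⟨P, hP1, hP2⟩ := h.surj {g}
    obtain ⟨f, hf1, hf2⟩ := solv_iff.1 (h.solv.1 (solv_iff.2 ⟨g, hP1, hP2⟩))
    refine ⟨f, ?_, ?_⟩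
    · exact singleton_wle.1 (((hπ f).2.trans ((h.iff _ _).1 hf2)).trans hP1)
    · exact singleton_wle.1 ((hP2.trans ((h.iff _ _).1 hf1)).trans (hπ f).1)

theorem IsAut.mem_iff {Φ : Set (ℕ → ℕ) → Set (ℕ → ℕ)} (h : IsAut Φ) {π : (ℕ → ℕ) → (ℕ → ℕ)}
    (hπ : ∀ f, WLE (Φ {f}) {π f} ∧ WLE {π f} (Φ {f})) (A : Set ℕ) (f : ℕ → ℕ) :
    WLE (Φ (Enu A)) {π f} ↔ CEIn A f := by
  rw [← wle_enu]
  constructor
  · intro h1
    exact (h.iff _ _).2 (h1.trans (hπ f).2)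
  · intro h1
    exact ((h.iff _ _).1 h1).trans (hπ f).1

theorem Indep.congr {x x' b : ℕ → ℕ} (h : Indep x b) (h1 : LE x x') (h2 : LE x' x) :
    Indep x' b := by
  refine ⟨fun h3 => h.1 (h1.trans h3), fun c d hc hd hw => h.2 c d hc hd fun w hxw hcw => ?_⟩
  exact hw w (h2.trans hxw) hcw

theorem PiAut.indep {π : (ℕ → ℕ) → (ℕ → ℕ)} (h : PiAut π) {x b : ℕ → ℕ} :
    Indep (π x) (π b) ↔ Indep x b := by
  constructor
  · rintro ⟨h1, h2⟩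
    refine ⟨fun h3 => h1 ((h.iff _ _).1 h3), fun c d hc hd hw => ?_⟩
    refine (h.iff _ _).2 (h2 (π c) (π d) ((h.iff _ _).1 hc) ((h.iff _ _).1 hd) ?_)
    intro w hxw hcw
    obtain ⟨w', h4, h5⟩ := h.surj w
    exact ((h.iff _ _).1 (hw w' ((h.iff _ _).2 (hxw.trans h5))
      ((h.iff _ _).2 (hcw.trans h5)))).trans h4
  · rintro ⟨h1, h2⟩
    refine ⟨fun h3 => h1 ((h.iff _ _).2 h3), fun c d hc hd hw => ?_⟩
    obtain ⟨c', hc1, hc2⟩ := h.surj c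
    obtain ⟨d', hd1, hd2⟩ := h.surj d
    have h6 : LE d' c' := by
      refine h2 c' d' ((h.iff _ _).2 (hc1.trans hc)) ((h.iff _ _).2 (hd1.trans hd)) ?_
      intro w hxw hcw
      exact (h.iff _ _).2 (hd1.trans (hw (π w) ((h.iff _ _).1 hxw)
        (hc2.trans ((h.iff _ _).1 hcw))))
    exact (hd2.trans ((h.iff _ _).1 h6)).trans hc1

theorem TotalAt.transfer {π : (ℕ → ℕ) → (ℕ → ℕ)} (h : PiAut π) {A B : Set ℕ}
    (hAB : ∀ f, CEIn B (π f) ↔ CEIn A f) {x : ℕ → ℕ} (hx : TotalAt A x) : TotalAt B (π x) := by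
  obtain ⟨y, hy⟩ := hx
  refine ⟨π y, fun z => ?_⟩
  obtain ⟨w, hw1, hw2⟩ := h.surj z
  constructor
  · rintro ⟨h1, h2⟩
    have h3 : LE y w := (hy w).1 ⟨(hAB w).1 (h1.mono hw2), (h.iff _ _).2 (h2.trans hw2)⟩
    exact ((h.iff _ _).1 h3).trans hw1
  · intro h1
    have h3 := (hy w).2 ((h.iff _ _).2 (h1.trans hw2))
    exact ⟨((hAB w).2 h3.1).mono hw1, ((h.iff _ _).1 h3.2).trans hw1⟩

theorem TotalAt.congr {B : Set ℕ} {x x' : ℕ → ℕ} (h : TotalAt B x) (h1 : LE x x')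
    (h2 : LE x' x) : TotalAt B x' := by
  obtain ⟨y, hy⟩ := h
  refine ⟨y, fun z => ?_⟩
  rw [← hy z]
  exact ⟨fun h3 => ⟨h3.1, h1.trans h3.2⟩, fun h3 => ⟨h3.1, h2.trans h3.2⟩⟩

theorem main {Φ : Set (ℕ → ℕ) → Set (ℕ → ℕ)} (h : IsAut Φ) {A : Set ℕ} (hA : GenTotal A) :
    ∃ B : Set ℕ, GenTotal B ∧ (AlmostTotal A → AlmostTotal B) ∧
      WLE (Φ (Enu A)) (Enu B) ∧ WLE (Enu B) (Φ (Enu A)) := by
  obtain ⟨π, hπ⟩ := h.exists_pi
  have hp := h.piAut hπ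
  have hm := h.mem_iff hπ A
  obtain ⟨b, hb⟩ := hA
  set U : Set (ℕ → ℕ) := {f | WLE (Φ (Enu A)) {f}} with hU
  have hUup : ∀ f g, f ∈ U → LE f g → g ∈ U := fun f g hf hfg =>
    WLE.trans hf (singleton_wle.2 hfg)
  have hUπ : ∀ f, π f ∈ U ↔ CEIn A f := hm
  have hH1 : ∀ x, Indep x (π b) → ∃ y, ∀ z, (z ∈ U ∧ LE x z) ↔ LE y z := by
    intro x hx
    obtain ⟨x', hx1, hx2⟩ := hp.surj x
    have hx' : Indep x' b := hp.indep.1 (hx.congr hx2 hx1)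
    obtain ⟨y, hy⟩ := hb x' hx'
    refine ⟨π y, fun z => ?_⟩
    obtain ⟨w, hw1, hw2⟩ := hp.surj z
    constructor
    · rintro ⟨h1, h2⟩
      have h3 : LE y w := (hy w).1 ⟨(hUπ w).1 (hUup _ _ h1 hw2),
        (hp.iff _ _).2 ((hx1.trans h2).trans hw2)⟩
      exact ((hp.iff _ _).1 h3).trans hw1
    · intro h1
      have h3 := (hy w).2 ((hp.iff _ _).2 (h1.trans hw2))
      exact ⟨hUup _ _ ((hUπ w).2 h3.1) hw1, (hx2.trans ((hp.iff _ _).1 h3.2)).trans hw1⟩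
  have hH2 : ∀ z, (∀ x, Indep x (π b) → jn z x ∈ U) → z ∈ U := by
    intro z hz
    obtain ⟨w, hw1, hw2⟩ := hp.surj z
    refine hUup _ _ ((hUπ w).2 (ce_closed A b w fun x hx => ?_)) hw1
    refine (hUπ _).1 (hUup _ _ (hz (π x) (hp.indep.2 hx)) ?_)
    exact jn_le (hw2.trans ((hp.iff _ _).1 (le_jn_left w x))) ((hp.iff _ _).1 (le_jn_right w x))
  obtain ⟨B, hB⟩ := core U hUup (fun x => Indep x (π b)) (indep_large (π b)) hH1 hH2
  have hAB : ∀ f, CEIn B (π f) ↔ CEIn A f := fun f => (hB (π f)).symm.trans (hUπ f)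
  refine ⟨B, ⟨π b, ?_⟩, ?_, ?_, ?_⟩
  · intro x hx
    obtain ⟨x', hx1, hx2⟩ := hp.surj x
    exact (TotalAt.transfer hp hAB (hb x' (hp.indep.1 (hx.congr hx2 hx1)))).congr hx1 hx2
  · intro hA x
    obtain ⟨x', hx1, hx2⟩ := hp.surj x
    rcases hA x' with h1 | h1
    · left
      intro z hz
      obtain ⟨w, hw1, hw2⟩ := hp.surj z
      exact (hx2.trans ((hp.iff _ _).1 (h1 w ((hAB w).1 (hz.mono hw2))))).trans hw1
    · right
      exact (TotalAt.transfer hp hAB h1).congr hx1 hx2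
  · intro f hf
    exact wle_singleton.1 ((hB f).2 hf)
  · intro f hf
    exact ⟨f, (hB f).1 (wle_of_mem hf), LE.refl f⟩

end Pool.Agent.Helper95.MW
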