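import Mathlib

/-!
# MP_80e84b_lc: relative computability (normal form, search)
-/

set_option autoImplicit false

namespace Pool.Agent.Helper95.MW

open Nat.Partrec

/-- initial segment of a function -/
def ini (f : ℕ → ℕ) (s : ℕ) : List ℕ := (List.range s).map f

/-- code of a list -/
def ec (l : List ℕ) : ℕ := Encodable.encode l

theorem ini_length (f : ℕ → ℕ) (s : ℕ) : (ini f s).length = s := by simp [ini]

theorem ini_succ (f : ℕ → ℕ) (s : ℕ) : ini f (s + 1) = ini f s ++ [f s] := by
  simp [ini, List.range_succ]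

theorem ini_get? {f : ℕ → ℕ} {s n : ℕ} (h : n < s) : (ini f s)[n]? = some (f n) := by
  simp [ini, h]

theorem ini_get?_eq {f : ℕ → ℕ} {s n k : ℕ} (h : (ini f s)[n]? = some k) : f n = k := by
  by_cases hn : n < s
  · rw [ini_get? hn] at h
    exact Option.some.inj h
  · rw [List.getElem?_eq_none (by rw [ini_length]; omega)] at h
    exact absurd h (by simp)

/-- approximation of a function recursive in `f` by a partial recursive function of the
initial segments -/
theorem approx {f : ℕ → ℕ} {p : ℕ →. ℕ} (hp : Nat.RecursiveIn {(PFun.lift f : ℕ →. ℕ)} p) :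
    ∃ F : List ℕ → ℕ →. ℕ, Partrec₂ F ∧ (∀ s n k, k ∈ F (ini f s) n → k ∈ p n) ∧
      (∀ n k, k ∈ p n → ∃ s0, ∀ s, s0 ≤ s → k ∈ F (ini f s) n) := by
  induction hp with
  | zero =>
    refine ⟨fun _ _ => Part.some 0, ?_, fun s n k h => h, fun n k h => ⟨0, fun s _ => h⟩⟩
    exact (Computable.const 0).partrec
  | succ =>
    refine ⟨fun _ n => Part.some (Nat.succ n), ?_, fun s n k h => h,
      fun n k h => ⟨0, fun s _ => h⟩⟩
    exact (Computable.succ.comp Computable.snd).partrec
  | left =>
    refine ⟨fun _ n => Part.some (Nat.unpair n).1, ?_, fun s n k h => h,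
      fun n k h => ⟨0, fun s _ => h⟩⟩
    exact ((Computable.fst.comp Computable.unpair).comp Computable.snd).partrec
  | right =>
    refine ⟨fun _ n => Part.some (Nat.unpair n).2, ?_, fun s n k h => h,
      fun n k h => ⟨0, fun s _ => h⟩⟩
    exact ((Computable.snd.comp Computable.unpair).comp Computable.snd).partrec
  | oracle g hg =>
    rw [Set.mem_singleton_iff] at hg
    subst hg
    refine ⟨fun l n => Part.ofOption (l[n]?), ?_, ?_, ?_⟩
    · exact Computable.ofOption (Computable.list_getElem?.comp Computable.fst Computable.snd)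
    · intro s n k h
      rw [Part.mem_ofOption] at h
      have := ini_get?_eq h
      rw [PFun.lift, ← this]
      exact Part.mem_some _
    · intro n k h
      refine ⟨n + 1, fun s hs => ?_⟩
      rw [Part.mem_ofOption, ini_get? (by omega)]
      have : k = f n := by
        have h2 : k ∈ Part.some (f n) := h
        exact Part.mem_some_iff.1 h2
      rw [this]
      rfl
  | pair _ _ ih1 ih2 =>
    obtain ⟨F, hF, hF1, hF2⟩ := ih1
    obtain ⟨H, hH, hH1, hH2⟩ := ih2
    refine ⟨fun l n => Nat.pair <$> F l n <*> H l n, ?_, ?_, ?_⟩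
    · have h3 : Partrec₂ fun (l : List ℕ) (n : ℕ) =>
          (F l n).bind fun a => (H l n).map fun b => Nat.pair a b := by
        refine Partrec.bind hF ?_
        refine Partrec.map (hH.comp (Computable.fst.comp Computable.fst)
          (Computable.snd.comp Computable.fst)) ?_
        exact (Primrec₂.natPair.to_comp.comp (Computable.snd.comp Computable.fst)
          Computable.snd).to₂
      refine h3.of_eq fun x => ?_
      simp [Seq.seq, Part.bind_map]
    · intro s n k h
      simp only [Seq.seq, Part.map_eq_map, Part.mem_bind_iff, Part.mem_map_iff] at h ⊢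
      obtain ⟨a, ⟨a', ha', rfl⟩, b, hb, rfl⟩ := h
      exact ⟨_, ⟨a', hF1 s n a' ha', rfl⟩, b, hH1 s n b hb, rfl⟩
    · intro n k h
      simp only [Seq.seq, Part.map_eq_map, Part.mem_bind_iff, Part.mem_map_iff] at h ⊢
      obtain ⟨a, ⟨a', ha', rfl⟩, b, hb, rfl⟩ := h
      obtain ⟨s1, h1⟩ := hF2 n a' ha'
      obtain ⟨s2, h2⟩ := hH2 n b hb
      exact ⟨max s1 s2, fun s hs => ⟨_, ⟨a', h1 s (by omega), rfl⟩, b, h2 s (by omega), rfl⟩⟩
  | comp _ _ ih1 ih2 =>
    obtain ⟨F, hF, hF1, hF2⟩ := ih1
    obtain ⟨H, hH, hH1, hH2⟩ := ih2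
    refine ⟨fun l n => (H l n).bind (F l), ?_, ?_, ?_⟩
    · exact Partrec.bind hH (hF.comp (Computable.fst.comp Computable.fst) Computable.snd)
    · intro s n k h
      rw [Part.mem_bind_iff] at h
      obtain ⟨a, ha, hk⟩ := h
      exact Part.mem_bind_iff.2 ⟨a, hH1 s n a ha, hF1 s a k hk⟩
    · intro n k h
      obtain ⟨a, ha, hk⟩ := Part.mem_bind_iff.1 h
      obtain ⟨s1, h1⟩ := hH2 n a ha
      obtain ⟨s2, h2⟩ := hF2 a k hk
      exact ⟨max s1 s2, fun s hs => Part.mem_bind_iff.2 ⟨a, h1 s (by omega), h2 s (by omega)⟩⟩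
  | prec _ _ ih1 ih2 =>
    rename_i p q _ _
    obtain ⟨F, hF, hF1, hF2⟩ := ih1
    obtain ⟨H, hH, hH1, hH2⟩ := ih2
    refine ⟨fun l n => Nat.rec (F l n.unpair.1)
      (fun y IH => IH.bind fun i => H l (Nat.pair n.unpair.1 (Nat.pair y i))) n.unpair.2,
      ?_, ?_, ?_⟩
    · refine Partrec.nat_rec (f := fun x : List ℕ × ℕ => x.2.unpair.2)
        (g := fun x : List ℕ × ℕ => F x.1 x.2.unpair.1)
        (h := fun (x : List ℕ × ℕ) (yi : ℕ × ℕ) =>
          H x.1 (Nat.pair x.2.unpair.1 (Nat.pair yi.1 yi.2))) ?_ ?_ ?_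
      · exact (Computable.snd.comp Computable.unpair).comp Computable.snd
      · exact hF.comp Computable.fst ((Computable.fst.comp Computable.unpair).comp Computable.snd)
      · have h5 : Partrec fun q : (List ℕ × ℕ) × (ℕ × ℕ) =>
            H q.1.1 (Nat.pair q.1.2.unpair.1 (Nat.pair q.2.1 q.2.2)) := by
          refine hH.comp (Computable.fst.comp Computable.fst) ?_
          refine Primrec₂.natPair.to_comp.comp ?_ ?_
          · exact (Computable.fst.comp Computable.unpair).comp
              (Computable.snd.comp Computable.fst)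
          · exact Primrec₂.natPair.to_comp.comp (Computable.fst.comp Computable.snd)
              (Computable.snd.comp Computable.snd)
        exact h5.to₂
    · intro s n
      simp only
      generalize n.unpair.1 = a
      generalize n.unpair.2 = m
      induction m with
      | zero => exact fun k h => hF1 s a k h
      | succ m ihm =>
        intro k h
        obtain ⟨i, hi, hk⟩ := Part.mem_bind_iff.1 h
        exact Part.mem_bind_iff.2 ⟨i, ihm i hi, hH1 s _ k hk⟩
    · intro n
      simp only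
      generalize n.unpair.1 = a
      generalize n.unpair.2 = m
      induction m with
      | zero => exact fun k h => hF2 a k h
      | succ m ihm =>
        intro k h
        obtain ⟨i, hi, hk⟩ := Part.mem_bind_iff.1 h
        obtain ⟨s1, h1⟩ := ihm i hi
        obtain ⟨s2, h2⟩ := hH2 _ k hk
        exact ⟨max s1 s2, fun s hs => Part.mem_bind_iff.2 ⟨i, h1 s (by omega), h2 s (by omega)⟩⟩
  | rfind _ ih1 =>
    rename_i p _
    obtain ⟨F, hF, hF1, hF2⟩ := ih1
    refine ⟨fun l a => Nat.rfind fun n => (fun m => decide (m = 0)) <$> F l (Nat.pair a n),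
      ?_, ?_, ?_⟩
    · refine Partrec.rfind (p := fun (x : List ℕ × ℕ) (n : ℕ) =>
        (fun m => decide (m = 0)) <$> F x.1 (Nat.pair x.2 n)) ?_
      refine Partrec.map (hF.comp (Computable.fst.comp Computable.fst)
        (Primrec₂.natPair.to_comp.comp (Computable.snd.comp Computable.fst) Computable.snd)) ?_
      exact ((PrimrecRel.decide Primrec.eq).to_comp.comp Computable.snd
        (Computable.const 0)).to₂
    · intro s a k h
      rw [Nat.mem_rfind] at h ⊢
      obtain ⟨h1, h2⟩ := h
      simp only [Part.map_eq_map, Part.mem_map_iff] at h1 h2 ⊢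
      refine ⟨?_, ?_⟩
      · obtain ⟨m, hm, hm2⟩ := h1
        exact ⟨m, hF1 s _ m hm, hm2⟩
      · intro j hj
        obtain ⟨m, hm, hm2⟩ := h2 hj
        exact ⟨m, hF1 s _ m hm, hm2⟩
    · intro a k h
      rw [Nat.mem_rfind] at h
      obtain ⟨h1, h2⟩ := h
      simp only [Part.map_eq_map, Part.mem_map_iff] at h1 h2
      obtain ⟨m0, hm0, hm02⟩ := h1
      obtain ⟨s1, h3⟩ := hF2 _ m0 hm0
      have h4 : ∀ N, N ≤ k → ∃ s0, ∀ s, s0 ≤ s → ∀ j, j < N → ∃ m, m ∈ F (ini f s) (Nat.pair a j) ∧
          decide (m = 0) = false := by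
        intro N
        induction N with
        | zero => exact fun _ => ⟨0, fun s _ j hj => absurd hj (by omega)⟩
        | succ N ihN =>
          intro hN
          obtain ⟨s2, h5⟩ := ihN (by omega)
          obtain ⟨m, hm, hm2⟩ := h2 (show N < k by omega)
          obtain ⟨s3, h6⟩ := hF2 _ m hm
          refine ⟨max s2 s3, fun s hs j hj => ?_⟩
          rcases Nat.lt_succ_iff_lt_or_eq.1 hj with hj | hj
          · exact h5 s (by omega) j hj
          · subst hj
            exact ⟨m, h6 s (by omega), hm2⟩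
      obtain ⟨s2, h5⟩ := h4 k le_rfl
      refine ⟨max s1 s2, fun s hs => ?_⟩
      rw [Nat.mem_rfind]
      simp only [Part.map_eq_map, Part.mem_map_iff]
      exact ⟨⟨m0, h3 s (by omega), hm02⟩, fun {j} hj => h5 s (by omega) j hj⟩

/-! ### total functions recursive in `w` -/

/-- `g` is recursive in `w` -/
def RT (w g : ℕ → ℕ) : Prop :=
  Nat.RecursiveIn {(PFun.lift w : ℕ →. ℕ)} (PFun.lift g : ℕ →. ℕ)

theorem rt_prim {w G : ℕ → ℕ} (hG : Nat.Primrec G) : RT w G := hG.recursiveIn

theorem rt_comp {w G g : ℕ → ℕ} (hG : RT w G) (hg : RT w g) : RT w (fun n => G (g n)) := by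
  refine (Nat.RecursiveIn.comp hG hg).of_eq fun n => ?_
  change (Part.some (g n)).bind _ = _
  rw [Part.bind_some]
  rfl

theorem rt_pair {w g h : ℕ → ℕ} (hg : RT w g) (hh : RT w h) :
    RT w (fun n => Nat.pair (g n) (h n)) := by
  refine (Nat.RecursiveIn.pair hg hh).of_eq fun n => ?_
  simp [PFun.lift, Seq.seq]

theorem rt_oracle (w : ℕ → ℕ) : RT w w := Nat.RecursiveIn.oracle _ rfl

theorem rt_left {w : ℕ → ℕ} : RT w (fun n => n.unpair.1) := Nat.RecursiveIn.left

theorem rt_right {w : ℕ → ℕ} : RT w (fun n => n.unpair.2) := Nat.RecursiveIn.right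

/-- decoding of lists -/
def dl (m : ℕ) : List ℕ := (Encodable.decode (α := List ℕ) m).getD []

theorem dl_ec (l : List ℕ) : dl (ec l) = l := by simp [dl, ec]

theorem primrec_dl : Primrec dl :=
  Primrec.option_getD.comp Primrec.decode (Primrec.const [])

theorem primrec_ec : Primrec ec := Primrec.encode

theorem rt_ini (w : ℕ → ℕ) : RT w (fun s => ec (ini w s)) := by
  have happ : Nat.Primrec (fun m : ℕ => ec (dl m.unpair.1 ++ [m.unpair.2])) := by
    refine Primrec.nat_iff.1 ?_
    refine primrec_ec.comp ?_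
    exact Primrec.list_concat.comp (primrec_dl.comp (Primrec.fst.comp Primrec.unpair))
      (Primrec.snd.comp Primrec.unpair)
  have h1 : RT w (fun _ => ec []) := rt_prim (Primrec.nat_iff.1 (Primrec.const _))
  have h2 : RT w (fun m => ec (dl (Nat.pair m.unpair.2.unpair.2 (w m.unpair.2.unpair.1)).unpair.1 ++
      [(Nat.pair m.unpair.2.unpair.2 (w m.unpair.2.unpair.1)).unpair.2])) :=
    rt_comp (rt_prim happ) (rt_pair (rt_comp rt_right rt_right)
      (rt_comp (rt_oracle w) (rt_comp rt_left rt_right)))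
  have h3 := Nat.RecursiveIn.prec h1 h2
  have h4 : RT w (fun p => ec (ini w p.unpair.2)) := by
    refine h3.of_eq fun p => ?_
    simp only [PFun.lift]
    generalize p.unpair.1 = a
    generalize p.unpair.2 = m
    induction m with
    | zero => rfl
    | succ m ih =>
      change (Nat.rec _ _ m : Part ℕ).bind _ = _
      rw [ih, Part.bind_some]
      simp only [Nat.unpair_pair, dl_ec, ini_succ]
  have h5 : Nat.Primrec (fun s : ℕ => Nat.pair 0 s) :=
    Primrec.nat_iff.1 (Primrec₂.natPair.comp (Primrec.const 0) Primrec.id)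
  have h6 := rt_comp h4 (rt_prim h5)
  simpa only [Nat.unpair_pair] using h6

/-- the search lemma -/
theorem search {α : Type} [Primcodable α] (ρ : ℕ × α × List ℕ → Bool) (hρ : Primrec ρ)
    (S : α → ℕ) (hS : Primrec S) (out : ℕ × α → ℕ) (hout : Primrec out) (w : ℕ → ℕ) :
    ∃ p : ℕ →. ℕ, Nat.RecursiveIn {(PFun.lift w : ℕ →. ℕ)} p ∧
      (∀ n, (∃ T, ρ (n, T, ini w (S T)) = true) ↔ (p n).Dom) ∧
      (∀ n k, k ∈ p n → ∃ T, ρ (n, T, ini w (S T)) = true ∧ k = out (n, T)) := by
  -- the test
  have hG : Nat.Primrec (fun v : ℕ => Option.casesOn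
      (Encodable.decode (α := α) v.unpair.1.unpair.2) (1 : ℕ)
      (fun T => cond (ρ (v.unpair.1.unpair.1, T, dl v.unpair.2)) 0 1)) := by
    refine Primrec.nat_iff.1 ?_
    refine Primrec.option_casesOn ?_ (Primrec.const 1) ?_
    · exact Primrec.decode.comp (Primrec.snd.comp (Primrec.unpair.comp
        (Primrec.fst.comp Primrec.unpair)))
    · refine Primrec.cond (hρ.comp ?_) (Primrec.const 0) (Primrec.const 1)
      refine Primrec.pair ?_ (Primrec.pair Primrec.snd ?_)
      · exact (Primrec.fst.comp (Primrec.unpair.comp (Primrec.fst.comp Primrec.unpair))).comp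
          Primrec.fst
      · exact (primrec_dl.comp (Primrec.snd.comp Primrec.unpair)).comp Primrec.fst
  have hS' : Nat.Primrec (fun m : ℕ => Option.casesOn (Encodable.decode (α := α) m) (0 : ℕ) S) := by
    refine Primrec.nat_iff.1 ?_
    exact Primrec.option_casesOn Primrec.decode (Primrec.const 0) (hS.comp Primrec.snd)
  set S' : ℕ → ℕ := fun m : ℕ => Option.casesOn (Encodable.decode (α := α) m) (0 : ℕ) S with hS'def
  set G : ℕ → ℕ := fun v : ℕ => Option.casesOn
      (Encodable.decode (α := α) v.unpair.1.unpair.2) (1 : ℕ)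
      (fun T => cond (ρ (v.unpair.1.unpair.1, T, dl v.unpair.2)) 0 1) with hGdef
  have hg : RT w (fun v => G (Nat.pair v (ec (ini w (S' v.unpair.2))))) := by
    refine rt_comp (rt_prim hG) (rt_pair (rt_prim (Primrec.nat_iff.1 Primrec.id)) ?_)
    exact rt_comp (rt_ini w) (rt_comp (rt_prim hS') rt_right)
  have hout' : Nat.Primrec (fun v : ℕ => Option.casesOn (Encodable.decode (α := α) v.unpair.2)
      (0 : ℕ) (fun T => out (v.unpair.1, T))) := by
    refine Primrec.nat_iff.1 ?_
    refine Primrec.option_casesOn (Primrec.decode.comp (Primrec.snd.comp Primrec.unpair))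
      (Primrec.const 0) ?_
    exact hout.comp (Primrec.pair ((Primrec.fst.comp Primrec.unpair).comp Primrec.fst)
      Primrec.snd)
  set outF : ℕ → ℕ := fun v : ℕ => Option.casesOn (Encodable.decode (α := α) v.unpair.2)
      (0 : ℕ) (fun T => out (v.unpair.1, T)) with hoF
  have key : ∀ n m : ℕ, (G (Nat.pair (Nat.pair n m) (ec (ini w (S' m)))) = 0) ↔
      ∃ T : α, Encodable.decode (α := α) m = some T ∧ ρ (n, T, ini w (S T)) = true := by
    intro n m
    simp only [hGdef, hS'def, Nat.unpair_pair, dl_ec]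
    cases h : Encodable.decode (α := α) m with
    | none => simp
    | some T =>
      simp only [Option.some.injEq, exists_eq_left']
      cases ρ (n, T, ini w (S T)) <;> simp
  have h1 := Nat.RecursiveIn.rfind hg
  have h2 := Nat.RecursiveIn.comp (rt_prim (w := w) hout')
    (Nat.RecursiveIn.pair (rt_prim (w := w) (Primrec.nat_iff.1 Primrec.id)) h1)
  refine ⟨_, h2, ?_, ?_⟩
  · intro n
    have e1 : (∃ T, ρ (n, T, ini w (S T)) = true) ↔
        ∃ m, G (Nat.pair (Nat.pair n m) (ec (ini w (S' m)))) = 0 := by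
      constructor
      · rintro ⟨T, hT⟩
        exact ⟨Encodable.encode T, (key n _).2 ⟨T, Encodable.encodek T, hT⟩⟩
      · rintro ⟨m, hm⟩
        obtain ⟨T, -, hT⟩ := (key n m).1 hm
        exact ⟨T, hT⟩
    rw [e1]
    simp only [PFun.lift, Seq.seq, Part.map_eq_map, Part.map_some, Part.bind_eq_bind,
      Part.bind_some]
    constructor
    · rintro ⟨m, hm⟩
      have h3 : (Nat.rfind fun m => Part.some (decide (G (Nat.pair (Nat.pair n m)
          (ec (ini w (S' (Nat.pair n m).unpair.2)))) = 0))).Dom := by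
        rw [Nat.rfind_dom]
        refine ⟨m, ?_, fun _ => trivial⟩
        rw [Part.mem_some_iff, Nat.unpair_pair]
        simp [hm]
      rw [Part.dom_iff_mem] at h3 ⊢
      obtain ⟨k, hk⟩ := h3
      refine ⟨outF (Nat.pair (id n) k), ?_⟩
      rw [Part.mem_bind_iff]
      refine ⟨Nat.pair (id n) k, (Part.mem_map_iff _).2 ⟨k, hk, rfl⟩, ?_⟩
      exact Part.mem_some _
    · intro h3
      rw [Part.dom_iff_mem] at h3
      obtain ⟨k, hk⟩ := h3
      obtain ⟨a, ha, -⟩ := Part.mem_bind_iff.1 hk
      obtain ⟨m, hm, -⟩ := (Part.mem_map_iff _).1 ha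
      rw [Nat.mem_rfind] at hm
      have h4 := hm.1
      rw [Part.mem_some_iff, Nat.unpair_pair] at h4
      exact ⟨m, by simpa using h4.symm⟩
  · intro n k hk
    simp only [PFun.lift, Seq.seq, Part.map_eq_map, Part.map_some, Part.bind_eq_bind,
      Part.bind_some] at hk
    obtain ⟨a, ha, hk2⟩ := Part.mem_bind_iff.1 hk
    obtain ⟨m, hm, rfl⟩ := (Part.mem_map_iff _).1 ha
    rw [Nat.mem_rfind] at hm
    have h4 := hm.1
    rw [Part.mem_some_iff, Nat.unpair_pair] at h4
    have h5 : G (Nat.pair (Nat.pair n m) (ec (ini w (S' m)))) = 0 := by simpa using h4.symm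
    obtain ⟨T, hT1, hT2⟩ := (key n m).1 h5
    refine ⟨T, hT2, ?_⟩
    have hk3 : k = outF (Nat.pair (id n) m) := Part.mem_some_iff.1 hk2
    rw [hk3]
    simp only [hoF, id, Nat.unpair_pair, hT1]

end Pool.Agent.Helper95.MW
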